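import Mathlib

/-!
# Reconfiguration of integer flows and of flows modulo `k`

`Graph V E` is a finite graph, multiple edges allowed, no loops, with an orientation of its edges.
`recMod G k` is the reconfiguration graph `F(G, ℤ_k)` of the nowhere-zero flows with values in the
integers modulo `k`, and `recInt G k` is the reconfiguration graph `F(G, k)` of the nowhere-zero
`k`-flows.

If `F(G, ℤ_k)` is connected then `F(G, k)` is connected, for all graphs `G` if `k ≤ 5`, and for every
`k ≥ 6` and all graphs `G` in which each cycle has fewer than `8 k / (k - 4)` edges.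

Proof: every move of `F(G, ℤ_k)` is the image of a move of `F(G, k)` (by a cut condition), and two
`k`-flows which are equal modulo `k` are joined by a path.
-/

set_option autoImplicit false
set_option linter.unusedSectionVars false

namespace Pool.Agent.Results.MP_3da9df_co.LiftedMoves

open Finset

/-- A graph with an orientation: the edge `e` goes from `src e` to `tgt e`. Multiple edges are
allowed, loops are not. -/
structure Graph (V E : Type) where
  /-- the start of an edge -/
  src : E → V
  /-- the end of an edge -/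
  tgt : E → V
  /-- no loops -/
  noloop : ∀ e, src e ≠ tgt e

variable {V E : Type} [Fintype V] [DecidableEq V] [Fintype E] [DecidableEq E]

/-- `f` is a flow: at each vertex the sum over the edges that leave it is equal to the sum over the
edges that enter it. -/
def IsFlow (G : Graph V E) {A : Type} [AddCommGroup A] (f : E → A) : Prop :=
  ∀ v, ∑ e with G.src e = v, f e = ∑ e with G.tgt e = v, f e

/-- the support -/
noncomputable def supp {A : Type} [AddCommGroup A] (f : E → A) : Finset E := by
  classical exact univ.filter fun e => f e ≠ 0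

/-- the edge `e` has the end point `v` -/
def Inc (G : Graph V E) (e : E) (v : V) : Prop := G.src e = v ∨ G.tgt e = v

instance (G : Graph V E) (e : E) (v : V) : Decidable (Inc G e v) := by
  unfold Inc; infer_instance

/-- `C` is the set of edges of a cycle: it is not empty, every vertex is on zero or two edges of `C`,
and `C` is connected: it is not the union of two nonempty parts without a common vertex. -/
structure IsCycle (G : Graph V E) (C : Finset E) : Prop where
  nonempty : C.Nonempty
  two : ∀ v, (C.filter (Inc G · v)).card = 0 ∨ (C.filter (Inc G · v)).card = 2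
  conn : ∀ S ⊆ C, S.Nonempty → S ≠ C → ∃ e ∈ S, ∃ e' ∈ C \ S, ∃ v, Inc G e v ∧ Inc G e' v

theorem supp_sub_comm {A : Type} [AddCommGroup A] (f g : E → A) : supp (f - g) = supp (g - f) := by
  unfold supp
  ext e
  simp only [mem_filter, mem_univ, true_and, Pi.sub_apply, ne_eq, sub_eq_zero]
  exact not_congr eq_comm

theorem supp_self {A : Type} [AddCommGroup A] (f : E → A) : supp (f - f) = ∅ := by
  unfold supp
  simp

/-- The reconfiguration graph `F(G, ℤ_k)`. -/
def recMod (G : Graph V E) (k : ℕ) :
    SimpleGraph {f : E → ZMod k // IsFlow G f ∧ ∀ e, f e ≠ 0} where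
  Adj f g := IsCycle G (supp (f.1 - g.1))
  symm := ⟨fun f g h => by rw [supp_sub_comm]; exact h⟩
  loopless := ⟨fun f h => by
    have h1 := h.nonempty
    rw [supp_self] at h1
    exact Finset.not_nonempty_empty h1⟩

/-- The reconfiguration graph `F(G, k)`. -/
def recInt (G : Graph V E) (k : ℕ) :
    SimpleGraph {f : E → ℤ // IsFlow G f ∧ ∀ e, f e ≠ 0 ∧ |f e| < k} where
  Adj f g := IsCycle G (supp (f.1 - g.1))
  symm := ⟨fun f g h => by rw [supp_sub_comm]; exact h⟩
  loopless := ⟨fun f h => by
    have h1 := h.nonempty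
    rw [supp_self] at h1
    exact Finset.not_nonempty_empty h1⟩

/-! ### The divergence -/

/-- the sign of the edge `e` at `v` -/
def sg (G : Graph V E) (e : E) (v : V) : ℤ :=
  (if G.src e = v then 1 else 0) - (if G.tgt e = v then 1 else 0)

/-- the divergence -/
def dv (G : Graph V E) {A : Type} [AddCommGroup A] (f : E → A) (v : V) : A :=
  ∑ e, sg G e v • f e

theorem dv_eq (G : Graph V E) {A : Type} [AddCommGroup A] (f : E → A) (v : V) :
    dv G f v = ∑ e with G.src e = v, f e - ∑ e with G.tgt e = v, f e := by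
  unfold dv sg
  rw [Finset.sum_filter, Finset.sum_filter, ← Finset.sum_sub_distrib]
  refine Finset.sum_congr rfl fun e _ => ?_
  split_ifs <;> simp

theorem isFlow_iff (G : Graph V E) {A : Type} [AddCommGroup A] (f : E → A) :
    IsFlow G f ↔ ∀ v, dv G f v = 0 := by
  unfold IsFlow
  refine forall_congr' fun v => ?_
  rw [dv_eq, sub_eq_zero]

theorem dv_add (G : Graph V E) {A : Type} [AddCommGroup A] (f g : E → A) (v : V) :
    dv G (f + g) v = dv G f v + dv G g v := by
  unfold dv
  rw [← Finset.sum_add_distrib]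
  exact Finset.sum_congr rfl fun e _ => by rw [Pi.add_apply, smul_add]

theorem dv_sub (G : Graph V E) {A : Type} [AddCommGroup A] (f g : E → A) (v : V) :
    dv G (f - g) v = dv G f v - dv G g v := by
  unfold dv
  rw [← Finset.sum_sub_distrib]
  exact Finset.sum_congr rfl fun e _ => by rw [Pi.sub_apply, smul_sub]

theorem dv_mul (G : Graph V E) (c : ℤ) (f : E → ℤ) (v : V) :
    dv G (fun e => c * f e) v = c * dv G f v := by
  unfold dv
  rw [Finset.mul_sum]
  exact Finset.sum_congr rfl fun e _ => by simp only [smul_eq_mul]; ring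

/-- the total divergence of a set of vertices -/
theorem cut_sum (G : Graph V E) (f : E → ℤ) (X : Finset V) :
    ∑ v ∈ X, dv G f v = ∑ e with G.src e ∈ X ∧ G.tgt e ∉ X, f e -
      ∑ e with G.src e ∉ X ∧ G.tgt e ∈ X, f e := by
  unfold dv
  rw [Finset.sum_comm, Finset.sum_filter, Finset.sum_filter, ← Finset.sum_sub_distrib]
  refine Finset.sum_congr rfl fun e _ => ?_
  rw [← Finset.sum_smul]
  have h1 : ∑ v ∈ X, sg G e v = (if G.src e ∈ X then 1 else 0) - (if G.tgt e ∈ X then 1 else 0) := by
    unfold sg
    rw [Finset.sum_sub_distrib, Finset.sum_ite_eq, Finset.sum_ite_eq]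
  rw [h1]
  by_cases h2 : G.src e ∈ X <;> by_cases h3 : G.tgt e ∈ X <;> simp [h2, h3]

theorem sum_dv (G : Graph V E) (f : E → ℤ) : ∑ v, dv G f v = 0 := by
  rw [cut_sum]
  simp

/-- the indicator function -/
def ind (S : Finset E) (e : E) : ℤ := if e ∈ S then 1 else 0

/-! ### Hoffman's condition -/

section Hoffman

variable (G : Graph V E) (b : V → ℤ)

/-- the excess -/
def ex (S : Finset E) (v : V) : ℤ := b v - dv G (ind S) v

/-- the tail of the residual arc -/
def tl (S : Finset E) (e : E) : V := if e ∈ S then G.tgt e else G.src e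

/-- the head of the residual arc -/
def hd (S : Finset E) (e : E) : V := if e ∈ S then G.src e else G.tgt e

/-- the other choice for the edge `e` -/
def flip (S : Finset E) (e : E) : Finset E := if e ∈ S then S.erase e else insert e S

theorem mem_flip_of_ne {S : Finset E} {e e' : E} (h : e' ≠ e) : e' ∈ flip S e ↔ e' ∈ S := by
  unfold flip
  split_ifs <;> simp [h]

theorem mem_flip_self {S : Finset E} {e : E} : e ∈ flip S e ↔ e ∉ S := by
  unfold flip
  split_ifs with h <;> simp [h]

theorem ex_flip (S : Finset E) (e : E) (v : V) : ex G b (flip S e) v = ex G b S v -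
    (if tl G S e = v then 1 else 0) + (if hd G S e = v then 1 else 0) := by
  have h1 : dv G (ind (flip S e)) v - dv G (ind S) v =
      sg G e v * (ind (flip S e) e - ind S e) := by
    rw [← dv_sub]
    unfold dv
    rw [Finset.sum_eq_single e]
    · rfl
    · intro e' _ h
      have : ind (flip S e) e' = ind S e' := by
        unfold ind
        simp only [mem_flip_of_ne h]
      rw [Pi.sub_apply, this, sub_self, smul_zero]
    · intro h
      exact absurd (mem_univ e) h
  have h2 : ind (flip S e) e - ind S e = if e ∈ S then -1 else 1 := by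
    unfold ind
    simp only [mem_flip_self]
    split_ifs with h <;> simp_all
  unfold ex
  have h3 : dv G (ind (flip S e)) v = dv G (ind S) v + sg G e v * (if e ∈ S then -1 else 1) := by
    rw [← h2, ← h1]; ring
  rw [h3]
  unfold sg tl hd
  split_ifs <;> ring

/-- the vertices from which a vertex of negative excess can be reached in `n` steps -/
def R (M S : Finset E) : ℕ → Set V
  | 0 => {v | ex G b S v < 0}
  | n + 1 => R M S n ∪ {v | ∃ e ∈ M, tl G S e = v ∧ hd G S e ∈ R M S n}

theorem R_mono {M S : Finset E} {m n : ℕ} (h : m ≤ n) : R G b M S m ⊆ R G b M S n := by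
  induction n with
  | zero =>
    have : m = 0 := by omega
    rw [this]
  | succ n ih =>
    rcases Nat.lt_or_ge m (n + 1) with h1 | h1
    · exact (ih (by omega)).trans Set.subset_union_left
    · have : m = n + 1 := by omega
      rw [this]

theorem flip_subset {M S : Finset E} {e : E} (hS : S ⊆ M) (he : e ∈ M) : flip S e ⊆ M := by
  unfold flip
  split_ifs
  · exact (erase_subset _ _).trans hS
  · exact insert_subset he hS

theorem tl_ne_hd (S : Finset E) (e : E) : tl G S e ≠ hd G S e := by
  unfold tl hd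
  split_ifs
  · exact (G.noloop e).symm
  · exact G.noloop e

/-- the total excess decreases -/
theorem improve (M : Finset E) (n : ℕ) : ∀ S ⊆ M, ∀ p, 0 < ex G b S p → p ∈ R G b M S n →
    ∃ S' ⊆ M, ∑ v, |ex G b S' v| < ∑ v, |ex G b S v| := by
  induction n with
  | zero =>
    intro S _ p hp h
    have : ex G b S p < 0 := h
    omega
  | succ n ih =>
    intro S hS p hp h
    by_cases hpn : p ∈ R G b M S n
    · exact ih S hS p hp hpn
    rcases h with h | ⟨e, he, htl, hhd⟩
    · exact absurd h hpn
    have hne := tl_ne_hd G S e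
    rw [htl] at hne
    set w := hd G S e with hw
    have hex : ∀ v, ex G b (flip S e) v = ex G b S v - (if p = v then 1 else 0) +
        (if w = v then 1 else 0) := by
      intro v
      rw [ex_flip, htl]
    have hsum : ∀ F : ℤ → ℤ, ∑ v, F (ex G b (flip S e) v) - ∑ v, F (ex G b S v) =
        (F (ex G b S p - 1) - F (ex G b S p)) + (F (ex G b S w + 1) - F (ex G b S w)) := by
      intro F
      rw [← Finset.sum_sub_distrib, ← Finset.add_sum_erase _ _ (mem_univ p),
        ← Finset.add_sum_erase _ _ (mem_erase.2 ⟨hne.symm, mem_univ w⟩)]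
      rw [Finset.sum_eq_zero (s := (univ.erase p).erase w)]
      · rw [hex, hex]
        simp [hne, hne.symm]
      · intro v hv
        have h1 : v ≠ w := (mem_erase.1 hv).1
        have h2 : v ≠ p := (mem_erase.1 (mem_erase.1 hv).2).1
        rw [hex, if_neg h2.symm, if_neg h1.symm]
        simp
    have habs := hsum (fun x => |x|)
    rw [abs_of_pos hp, abs_of_nonneg (by omega : (0 : ℤ) ≤ ex G b S p - 1)] at habs
    rcases lt_or_ge (ex G b S w) 0 with hw0 | hw0
    · refine ⟨flip S e, flip_subset hS he, ?_⟩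
      rw [abs_of_neg hw0, abs_of_nonpos (by omega : ex G b S w + 1 ≤ 0)] at habs
      omega
    · rw [abs_of_nonneg hw0, abs_of_pos (by omega : (0 : ℤ) < ex G b S w + 1)] at habs
      have hR : ∀ i ≤ n, R G b M S i ⊆ R G b M (flip S e) i := by
        intro i
        induction i with
        | zero =>
          intro _ v hv
          have hv' : ex G b S v < 0 := hv
          show ex G b (flip S e) v < 0
          have h1 : p ≠ v := by
            rintro rfl
            omega
          have h2 : w ≠ v := by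
            intro h2
            rw [← h2] at hv'
            omega
          rw [hex, if_neg h1, if_neg h2]
          omega
        | succ i ihi =>
          intro hi v hv
          rcases hv with hv | ⟨e', he', h1, h2⟩
          · exact Or.inl (ihi (by omega) hv)
          · have hee : e' ≠ e := by
              rintro rfl
              apply hpn
              apply R_mono G b hi
              exact Or.inr ⟨e', he', htl, h2⟩
            right
            refine ⟨e', he', ?_, ?_⟩
            · rw [← h1]
              unfold tl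
              simp only [mem_flip_of_ne hee]
            · have : hd G (flip S e) e' = hd G S e' := by
                unfold hd
                simp only [mem_flip_of_ne hee]
              rw [this]
              exact ihi (by omega) h2
      have hwp : 0 < ex G b (flip S e) w := by
        rw [hex, if_neg hne, if_pos rfl]
        omega
      obtain ⟨S', hS', hlt⟩ := ih (flip S e) (flip_subset hS he) w hwp (hR n le_rfl hhd)
      exact ⟨S', hS', by omega⟩

theorem exists_zero (M : Finset E) (hb : ∑ v, b v = 0)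
    (hcut : ∀ X : Finset V, ∑ v ∈ X, b v ≤
      ((M.filter fun e => G.src e ∈ X ∧ G.tgt e ∉ X).card : ℤ)) (N : ℕ) :
    ∀ S ⊆ M, ∑ v, |ex G b S v| ≤ N → ∃ S' ⊆ M, ∀ v, dv G (ind S') v = b v := by
  classical
  induction N using Nat.strong_induction_on with
  | _ N ih =>
  intro S hS hN
  by_cases h0 : ∀ v, ex G b S v = 0
  · refine ⟨S, hS, fun v => ?_⟩
    have := h0 v
    unfold ex at this
    omega
  have hsum0 : ∑ v, ex G b S v = 0 := by
    unfold ex
    rw [Finset.sum_sub_distrib, hb, sum_dv]
    rfl
  by_cases hA : ∃ p, 0 < ex G b S p ∧ ∃ n, p ∈ R G b M S n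
  · obtain ⟨p, hp, n, hn⟩ := hA
    obtain ⟨S', hS', hlt⟩ := improve G b M n S hS p hp hn
    have h1 : (0 : ℤ) ≤ ∑ v, |ex G b S' v| := Finset.sum_nonneg fun _ _ => abs_nonneg _
    have h2 : (∑ v, |ex G b S' v|).toNat < N := by omega
    exact ih _ h2 S' hS' (by rw [Int.toNat_of_nonneg h1])
  · exfalso
    push Not at hA
    set X : Finset V := univ.filter fun v => ∀ n, v ∉ R G b M S n with hX
    have hmem : ∀ v, v ∈ X ↔ ∀ n, v ∉ R G b M S n := by
      intro v; rw [hX]; simp
    have hnn : ∀ v ∈ X, 0 ≤ ex G b S v := by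
      intro v hv
      have := (hmem v).1 hv 0
      exact not_lt.1 this
    obtain ⟨p, hp⟩ : ∃ p, 0 < ex G b S p := by
      by_contra hc
      push Not at hc
      apply h0
      intro v
      have := (Finset.sum_eq_zero_iff_of_nonpos (fun v _ => hc v)).1 hsum0 v (mem_univ v)
      exact this
    have hpX : p ∈ X := (hmem p).2 (hA p hp)
    have hexX : 0 < ∑ v ∈ X, ex G b S v :=
      Finset.sum_pos' hnn ⟨p, hpX, hp⟩
    have h1 : ∑ v ∈ X, ex G b S v = ∑ v ∈ X, b v - ∑ v ∈ X, dv G (ind S) v := by
      unfold ex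
      rw [Finset.sum_sub_distrib]
    have h2 := hcut X
    rw [cut_sum] at h1
    have h3 : ∑ e with G.src e ∉ X ∧ G.tgt e ∈ X, ind S e = 0 := by
      refine Finset.sum_eq_zero fun e he => ?_
      rw [mem_filter] at he
      unfold ind
      rw [if_neg]
      intro heS
      apply he.2.1
      rw [hmem]
      intro n hn
      have h4 : G.tgt e ∈ R G b M S (n + 1) := by
        right
        refine ⟨e, hS heS, ?_, ?_⟩
        · unfold tl; rw [if_pos heS]
        · unfold hd; rw [if_pos heS]; exact hn
      exact (hmem _).1 he.2.2 _ h4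
    have h4 : ∑ e with G.src e ∈ X ∧ G.tgt e ∉ X, ind S e =
        ((M.filter fun e => G.src e ∈ X ∧ G.tgt e ∉ X).card : ℤ) := by
      have h5 : (M.filter fun e => G.src e ∈ X ∧ G.tgt e ∉ X) =
          (univ.filter fun e => G.src e ∈ X ∧ G.tgt e ∉ X).filter fun e => e ∈ S := by
        ext e
        simp only [mem_filter, mem_univ, true_and]
        constructor
        · rintro ⟨he, hs, ht⟩
          refine ⟨⟨hs, ht⟩, ?_⟩
          by_contra heS
          rw [hmem] at ht
          push Not at ht
          obtain ⟨n, hn⟩ := ht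
          have h6 : G.src e ∈ R G b M S (n + 1) := by
            right
            refine ⟨e, he, ?_, ?_⟩
            · unfold tl; rw [if_neg heS]
            · unfold hd; rw [if_neg heS]; exact hn
          exact (hmem _).1 hs _ h6
        · rintro ⟨h, heS⟩
          exact ⟨hS heS, h⟩
      rw [h5, Finset.card_filter]
      push_cast
      rfl
    rw [h3, h4] at h1
    omega

/-- Hoffman's theorem for sets of edges with given divergence -/
theorem hoffman (M : Finset E) (hb : ∑ v, b v = 0)
    (hcut : ∀ X : Finset V, ∑ v ∈ X, b v ≤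
      ((M.filter fun e => G.src e ∈ X ∧ G.tgt e ∉ X).card : ℤ)) :
    ∃ S ⊆ M, ∀ v, dv G (ind S) v = b v := by
  have h1 : (0 : ℤ) ≤ ∑ v, |ex G b ∅ v| := Finset.sum_nonneg fun _ _ => abs_nonneg _
  exact exists_zero G b M hb hcut (∑ v, |ex G b ∅ v|).toNat ∅ (empty_subset _)
    (by rw [Int.toNat_of_nonneg h1])

end Hoffman

/-! ### The orientation of a cycle -/

/-- the lift lemma -/
theorem lift_lemma (G : Graph V E) (k : ℤ) (hk : 0 < k) (a : E → ℤ) (hdiv : ∀ v, k ∣ dv G a v)
    (M : Finset E) (hcut : ∀ X : Finset V, ∑ v ∈ X, dv G a v ≤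
      k * ((M.filter fun e => G.src e ∈ X ∧ G.tgt e ∉ X).card : ℤ)) :
    ∃ S ⊆ M, ∀ v, dv G (fun e => a e - k * ind S e) v = 0 := by
  choose b hb using hdiv
  have h1 : ∑ v, b v = 0 := by
    have h2 := sum_dv G a
    simp only [hb] at h2
    rw [← Finset.mul_sum] at h2
    exact (mul_eq_zero.1 h2).resolve_left hk.ne'
  obtain ⟨S, hS, h2⟩ := hoffman G b M h1 (fun X => by
    have h3 := hcut X
    simp only [hb] at h3
    rw [← Finset.mul_sum] at h3
    exact le_of_mul_le_mul_left h3 hk)
  refine ⟨S, hS, fun v => ?_⟩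
  have h3 : (fun e => a e - k * ind S e) = a - fun e => k * ind S e := rfl
  rw [h3, dv_sub, dv_mul, h2, hb, sub_self]

theorem sg_eq (G : Graph V E) (e : E) (v : V) :
    sg G e v = (if Inc G e v then 1 else 0) - 2 * (if G.tgt e = v then 1 else 0) := by
  unfold sg Inc
  by_cases h1 : G.src e = v <;> by_cases h2 : G.tgt e = v
  · exact absurd (h1.trans h2.symm) (G.noloop e)
  · simp [h1, h2]
  · simp [h1, h2]
  · simp [h1, h2]

theorem sg_of_inc (G : Graph V E) {e : E} {v : V} (h : Inc G e v) : sg G e v = 1 ∨ sg G e v = -1 := by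
  rw [sg_eq, if_pos h]
  split_ifs
  · right; norm_num
  · left; norm_num

theorem sg_of_not_inc (G : Graph V E) {e : E} {v : V} (h : ¬ Inc G e v) : sg G e v = 0 := by
  unfold Inc at h
  push Not at h
  unfold sg
  rw [if_neg h.1, if_neg h.2, sub_self]

theorem card_out_in (G : Graph V E) (C : Finset E) (X : Finset V) :
    ∑ v ∈ X, dv G (ind C) v = ((C.filter fun e => G.src e ∈ X ∧ G.tgt e ∉ X).card : ℤ) -
      ((C.filter fun e => G.src e ∉ X ∧ G.tgt e ∈ X).card : ℤ) := by
  rw [cut_sum]
  have h1 : ∀ P : E → Prop, ∀ [DecidablePred P], ∑ e with P e, ind C e =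
      ((C.filter P).card : ℤ) := by
    intro P _
    unfold ind
    rw [← Finset.sum_filter, Finset.sum_const, nsmul_eq_mul, mul_one]
    congr 2
    ext e
    simp only [mem_filter, mem_univ, true_and]
    exact and_comm
  rw [h1, h1]

/-- the orientation of a cycle -/
theorem orient (G : Graph V E) {C : Finset E} (hC : IsCycle G C) :
    ∃ σ : E → ℤ, (∀ e ∈ C, σ e = 1 ∨ σ e = -1) ∧ (∀ e ∉ C, σ e = 0) ∧ ∀ v, dv G σ v = 0 := by
  obtain ⟨S, hS, h1⟩ := lift_lemma G 2 (by norm_num) (ind C) (fun v => by
    have h2 : dv G (ind C) v = ((C.filter (Inc G · v)).card : ℤ) -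
        2 * ∑ e ∈ C, (if G.tgt e = v then 1 else 0) := by
      unfold dv
      have h3 : ∀ e, sg G e v • ind C e = if e ∈ C then sg G e v else 0 := by
        intro e
        unfold ind
        split_ifs <;> simp
      simp only [h3]
      rw [← Finset.sum_filter, Finset.filter_mem_eq_inter, Finset.univ_inter]
      simp only [sg_eq]
      rw [Finset.sum_sub_distrib, ← Finset.mul_sum, Finset.card_filter]
      push_cast
      rfl
    rw [h2]
    rcases hC.two v with h | h <;> rw [h]
    · exact ⟨-∑ e ∈ C, (if G.tgt e = v then 1 else 0), by push_cast; ring⟩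
    · exact ⟨1 - ∑ e ∈ C, (if G.tgt e = v then 1 else 0), by push_cast; ring⟩) C (fun X => by
    rw [card_out_in]
    have : (0 : ℤ) ≤ ((C.filter fun e => G.src e ∉ X ∧ G.tgt e ∈ X).card : ℤ) := by positivity
    have : (0 : ℤ) ≤ ((C.filter fun e => G.src e ∈ X ∧ G.tgt e ∉ X).card : ℤ) := by positivity
    omega)
  refine ⟨_, ?_, ?_, h1⟩
  · intro e he
    simp only [ind, if_pos he]
    split_ifs
    · right; norm_num
    · left; norm_num
  · intro e he
    have h2 : e ∉ S := fun h => he (hS h)
    simp only [ind, if_neg he, if_neg h2]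
    norm_num

/-! ### A flow whose support is a cycle -/

theorem dv_pair (G : Graph V E) {C : Finset E} {A : Type} [AddCommGroup A] (f : E → A)
    (hf : ∀ e ∉ C, f e = 0) {v : V} {e e' : E} (hne : e ≠ e') (he : e ∈ C) (he' : e' ∈ C)
    (hv : Inc G e v) (hv' : Inc G e' v) (h2 : (C.filter (Inc G · v)).card = 2) :
    dv G f v = sg G e v • f e + sg G e' v • f e' := by
  have h3 : ({e, e'} : Finset E) = C.filter (Inc G · v) := by
    apply Finset.eq_of_subset_of_card_le
    · intro x hx
      rw [mem_insert, mem_singleton] at hx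
      rcases hx with rfl | rfl
      · exact mem_filter.2 ⟨he, hv⟩
      · exact mem_filter.2 ⟨he', hv'⟩
    · rw [h2, Finset.card_pair hne]
  unfold dv
  rw [← Finset.sum_pair (f := fun e => sg G e v • f e) hne, h3]
  symm
  apply Finset.sum_subset (Finset.subset_univ _)
  intro x _ hx
  rw [mem_filter, not_and] at hx
  by_cases hxC : x ∈ C
  · rw [sg_of_not_inc G (hx hxC), zero_smul]
  · rw [hf x hxC, smul_zero]

theorem two_of_mem (G : Graph V E) {C : Finset E} (hC : IsCycle G C) {e : E} {v : V} (he : e ∈ C)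
    (hv : Inc G e v) : (C.filter (Inc G · v)).card = 2 := by
  rcases hC.two v with h | h
  · rw [Finset.card_eq_zero] at h
    have : e ∈ C.filter (Inc G · v) := mem_filter.2 ⟨he, hv⟩
    rw [h] at this
    simp at this
  · exact h

/-- a flow with the support in a cycle is a multiple of the orientation of the cycle -/
theorem flow_on_cycle (G : Graph V E) {C : Finset E} (hC : IsCycle G C) {A : Type} [AddCommGroup A]
    (δ : E → A) (hδ : ∀ e ∉ C, δ e = 0) (hflow : ∀ v, dv G δ v = 0) (σ : E → ℤ)
    (hσ : ∀ e ∈ C, σ e = 1 ∨ σ e = -1) (hσ0 : ∀ e ∉ C, σ e = 0) (hσflow : ∀ v, dv G σ v = 0) :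
    ∃ c : A, ∀ e, δ e = σ e • c := by
  classical
  obtain ⟨e0, he0⟩ := hC.nonempty
  refine ⟨σ e0 • δ e0, ?_⟩
  set c := σ e0 • δ e0 with hc
  have key : ∀ e ∈ C, σ e • δ e = c := by
    by_contra hcon
    push Not at hcon
    obtain ⟨e1, he1, hne1⟩ := hcon
    obtain ⟨e, he, e', he', v, hv, hv'⟩ := hC.conn (C.filter fun e => σ e • δ e = c)
      (Finset.filter_subset _ _) ⟨e0, mem_filter.2 ⟨he0, rfl⟩⟩ (by
        intro h
        rw [← h, mem_filter] at he1
        exact hne1 he1.2)
    rw [mem_filter] at he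
    rw [mem_sdiff, mem_filter, not_and] at he'
    have hne : e ≠ e' := by
      rintro rfl
      exact he'.2 he'.1 he.2
    have h2 := two_of_mem G hC he.1 hv
    have h3 := dv_pair G δ hδ hne he.1 he'.1 hv hv' h2
    have h4 := dv_pair G σ hσ0 hne he.1 he'.1 hv hv' h2
    rw [hflow] at h3
    rw [hσflow] at h4
    apply he'.2 he'.1
    rw [← he.2]
    have h5 := hσ e he.1
    have h6 := hσ e' he'.1
    have h7 := sg_of_inc G hv
    have h8 := sg_of_inc G hv'
    simp only [smul_eq_mul] at h4
    rcases h5 with h5 | h5 <;> rcases h6 with h6 | h6 <;> rcases h7 with h7 | h7 <;>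
      rcases h8 with h8 | h8 <;> rw [h5, h6, h7, h8] at h4 <;> rw [h7, h8] at h3 <;>
      rw [h5, h6] <;> first
        | (exfalso; norm_num at h4; done)
        | (simp only [one_smul, neg_smul] at h3 ⊢
           first
             | exact (eq_neg_of_add_eq_zero_right h3.symm)
             | (have h9 := eq_neg_of_add_eq_zero_right h3.symm
                rw [h9]; simp)
             | (have h9 := eq_neg_of_add_eq_zero_right h3.symm
                simp at h9
                first
                  | rw [h9]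
                  | rw [← h9, neg_neg]))
  intro e
  by_cases he : e ∈ C
  · rw [← key e he, smul_smul]
    rcases hσ e he with h | h <;> rw [h] <;> simp
  · rw [hδ e he, hσ0 e he, zero_smul]

/-! ### Lifting a move along a directed cycle -/

theorem cast_dv (G : Graph V E) (k : ℕ) (f : E → ℤ) (v : V) :
    ((dv G f v : ℤ) : ZMod k) = dv G (fun e => ((f e : ℤ) : ZMod k)) v := by
  unfold dv
  push_cast
  refine Finset.sum_congr rfl fun e _ => ?_
  rw [zsmul_eq_mul]
  push_cast
  simp

theorem card_filter_ind (C : Finset E) (P : E → Prop) [DecidablePred P] :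
    ((C.filter P).card : ℤ) = ∑ e, ind C e * (if P e then 1 else 0) := by
  rw [Finset.card_filter]
  push_cast
  have h1 : ∀ e, ind C e * (if P e then (1 : ℤ) else 0) =
      if e ∈ C then (if P e then 1 else 0) else 0 := by
    intro e
    unfold ind
    split_ifs <;> simp
  simp only [h1]
  conv_rhs => rw [← Finset.sum_filter, Finset.filter_mem_eq_inter, Finset.univ_inter]

theorem lift_pos (G : Graph V E) (k : ℕ) (hk : 2 ≤ k) (C : Finset E)
    (hC : ∀ v, dv G (ind C) v = 0) (φ : E → ZMod k) (hφ : ∀ v, dv G φ v = 0)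
    (w : E → ℤ) (hcast : ∀ e, ((w e : ℤ) : ZMod k) = φ e) (hv1 : ∀ e, 1 ≤ w e)
    (hv2 : ∀ e, w e < k) (c : ℤ) (hc1 : 1 ≤ c) (hck : c < k)
    (hb : (c - 2) * ((C.filter fun e => (k : ℤ) < w e + c).card : ℤ) < 2 * k)
    (hψ : ∀ e ∈ C, φ e + (c : ZMod k) ≠ 0) :
    ∃ f : E → ℤ, (∀ v, dv G f v = 0) ∧ (∀ e, ((f e : ℤ) : ZMod k) = φ e) ∧
      (∀ e, f e ≠ 0 ∧ |f e| < k) ∧ ∀ e ∈ C, f e + c ≠ 0 ∧ |f e + c| < k := by
  have : NeZero k := ⟨by omega⟩
  have hk0 : (0 : ℤ) < k := by omega
  have hψ' : ∀ e ∈ C, w e + c ≠ k := by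
    intro e he h
    apply hψ e he
    rw [← hcast e, ← Int.cast_add, h]
    simp
  set L : Finset E := C.filter fun e => (k : ℤ) < w e + c with hL
  set a : E → ℤ := fun e => w e - k * ind L e with ha
  have hcasta : ∀ e, ((a e : ℤ) : ZMod k) = φ e := by
    intro e
    rw [ha]
    push_cast
    rw [hcast]
    simp
  have hdiv : ∀ v, (k : ℤ) ∣ dv G a v := by
    intro v
    rw [← ZMod.intCast_zmod_eq_zero_iff_dvd, cast_dv]
    simp only [hcasta]
    exact hφ v
  obtain ⟨S, hS, h1⟩ := lift_lemma G k hk0 a hdiv (univ \ L) (fun X => by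
    obtain ⟨t, ht⟩ : (k : ℤ) ∣ ∑ v ∈ X, dv G a v := Finset.dvd_sum fun v _ => hdiv v
    have hA : ∑ v ∈ X, dv G a v = ∑ e, (a e * (if G.src e ∈ X ∧ G.tgt e ∉ X then 1 else 0) -
        a e * (if G.src e ∉ X ∧ G.tgt e ∈ X then 1 else 0)) := by
      rw [cut_sum, Finset.sum_filter, Finset.sum_filter, Finset.sum_sub_distrib]
      congr 1 <;> exact Finset.sum_congr rfl fun e _ => by split_ifs <;> simp
    have hmm : ∑ e, ind C e * ((if G.src e ∈ X ∧ G.tgt e ∉ X then (1 : ℤ) else 0) -
        (if G.src e ∉ X ∧ G.tgt e ∈ X then 1 else 0)) = 0 := by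
      have h2 : ∑ v ∈ X, dv G (ind C) v = 0 := Finset.sum_eq_zero fun v _ => hC v
      rw [card_out_in, card_filter_ind, card_filter_ind, ← Finset.sum_sub_distrib] at h2
      refine Eq.trans (Finset.sum_congr rfl fun e _ => ?_) h2
      exact mul_sub _ _ _
    set M : ℤ := (((univ \ L).filter fun e => G.src e ∈ X ∧ G.tgt e ∉ X).card : ℤ) with hM
    set Q : ℤ := ((L.filter fun e => (G.src e ∈ X ∧ G.tgt e ∉ X) ∨
      (G.src e ∉ X ∧ G.tgt e ∈ X)).card : ℤ) with hQ
    have hQ0 : 0 ≤ Q := by rw [hQ]; positivity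
    have hQL : Q ≤ (L.card : ℤ) := by
      rw [hQ]
      exact_mod_cast Finset.card_filter_le _ _
    have hB : 2 * ∑ v ∈ X, dv G a v ≤ 2 * (k * M) + (c - 2) * Q := by
      have h2 : 2 * ∑ v ∈ X, dv G a v + c * ∑ e, ind C e *
          ((if G.src e ∈ X ∧ G.tgt e ∉ X then (1 : ℤ) else 0) -
          (if G.src e ∉ X ∧ G.tgt e ∈ X then 1 else 0)) ≤ 2 * (k * M) + (c - 2) * Q := by
        rw [hA, hM, hQ, card_filter_ind, card_filter_ind, Finset.mul_sum, Finset.mul_sum,
          Finset.mul_sum, Finset.mul_sum, Finset.mul_sum, ← Finset.sum_add_distrib,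
          ← Finset.sum_add_distrib]
        refine Finset.sum_le_sum fun e _ => ?_
        have h2 := hv1 e
        have h3 := hv2 e
        by_cases hs : G.src e ∈ X <;> by_cases ht : G.tgt e ∈ X
        · simp [hs, ht]
        · by_cases heC : e ∈ C
          · by_cases heL : e ∈ L
            · have h4 := (mem_filter.1 heL).2
              simp [hs, ht, ha, ind, heC, heL]
              omega
            · have h4 : ¬ (k : ℤ) < w e + c := fun h => heL (mem_filter.2 ⟨heC, h⟩)
              simp [hs, ht, ha, ind, heC, heL]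
              omega
          · have heL : e ∉ L := fun h => heC (mem_filter.1 h).1
            simp [hs, ht, ha, ind, heC, heL]
            omega
        · by_cases heC : e ∈ C
          · by_cases heL : e ∈ L
            · have h4 := (mem_filter.1 heL).2
              simp [hs, ht, ha, ind, heC, heL]
              omega
            · have h4 : ¬ (k : ℤ) < w e + c := fun h => heL (mem_filter.2 ⟨heC, h⟩)
              simp [hs, ht, ha, ind, heC, heL]
              omega
          · have heL : e ∉ L := fun h => heC (mem_filter.1 h).1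
            simp [hs, ht, ha, ind, heC, heL]
            omega
        · simp [hs, ht]
      rw [hmm, mul_zero, add_zero] at h2
      exact h2
    have h6 : (c - 2) * Q < 2 * k := by
      rcases le_or_gt c 2 with h7 | h7
      · nlinarith
      · have : (c - 2) * Q ≤ (c - 2) * (L.card : ℤ) :=
          mul_le_mul_of_nonneg_left hQL (by omega)
        omega
    rw [ht] at hB ⊢
    have h8 : (k : ℤ) * t < k * (M + 1) := by nlinarith
    have h9 : t < M + 1 := lt_of_mul_lt_mul_left h8 hk0.le
    exact mul_le_mul_of_nonneg_left (by omega) hk0.le)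
  refine ⟨fun e => a e - k * ind S e, h1, ?_, ?_, ?_⟩
  · intro e
    push_cast
    rw [hcasta]
    simp
  · intro e
    have h2 := hv1 e
    have h3 := hv2 e
    by_cases heL : e ∈ L
    · have heS : e ∉ S := by
        intro h
        have := hS h
        simp [heL] at this
      simp only [ha, ind, if_pos heL, if_neg heS]
      constructor
      · omega
      · rw [abs_lt]
        constructor <;> omega
    · simp only [ha, ind, if_neg heL]
      split_ifs
      · constructor
        · omega
        · rw [abs_lt]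
          constructor <;> omega
      · constructor
        · omega
        · rw [abs_lt]
          constructor <;> omega
  · intro e he
    have h2 := hv1 e
    have h3 := hv2 e
    have h4 := hψ' e he
    by_cases heL : e ∈ L
    · have h5 := (mem_filter.1 heL).2
      have heS : e ∉ S := by
        intro h
        have := hS h
        simp [heL] at this
      simp only [ha, ind, if_pos heL, if_neg heS]
      constructor
      · omega
      · rw [abs_lt]
        constructor <;> omega
    · have h5 : ¬ (k : ℤ) < w e + c := fun h => heL (mem_filter.2 ⟨he, h⟩)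
      simp only [ha, ind, if_neg heL]
      split_ifs
      · constructor
        · omega
        · rw [abs_lt]
          constructor <;> omega
      · constructor
        · omega
        · rw [abs_lt]
          constructor <;> omega

/-- the graph with the edges `e` with `s e = true` reversed -/
def rev (G : Graph V E) (s : E → Bool) : Graph V E where
  src e := if s e then G.tgt e else G.src e
  tgt e := if s e then G.src e else G.tgt e
  noloop e := by
    split_ifs
    · exact (G.noloop e).symm
    · exact G.noloop e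

/-- the sign of a reversal -/
def sn (s : E → Bool) (e : E) : ℤ := if s e then -1 else 1

theorem sn_cases (s : E → Bool) (e : E) : sn s e = 1 ∨ sn s e = -1 := by
  unfold sn
  split_ifs
  · exact Or.inr rfl
  · exact Or.inl rfl

theorem sn_mul_self (s : E → Bool) (e : E) : sn s e * sn s e = 1 := by
  rcases sn_cases s e with h | h <;> rw [h] <;> norm_num

theorem dv_rev (G : Graph V E) (s : E → Bool) {A : Type} [AddCommGroup A] (f : E → A) (v : V) :
    dv (rev G s) f v = dv G (fun e => sn s e • f e) v := by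
  unfold dv
  refine Finset.sum_congr rfl fun e _ => ?_
  rw [smul_smul]
  congr 1
  unfold sg rev sn
  dsimp only
  split_ifs <;> simp_all

/-- a move in the direction `σ` can be lifted if its cycle has few edges with a forced value -/
theorem lift_core (G : Graph V E) (k : ℕ) (hk : 2 ≤ k) {C : Finset E} (φ ψ : E → ZMod k)
    (hφ : ∀ v, dv G φ v = 0) (hφ0 : ∀ e, φ e ≠ 0) (hψ0 : ∀ e, ψ e ≠ 0) (σ : E → ℤ)
    (hσ1 : ∀ e ∈ C, σ e = 1 ∨ σ e = -1) (hσ0 : ∀ e ∉ C, σ e = 0) (hσ : ∀ v, dv G σ v = 0)
    (c : ℤ) (hc1 : 1 ≤ c) (hck : c < k) (hσc : ∀ e, ψ e - φ e = ((σ e * c : ℤ) : ZMod k))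
    (hb : (c - 2) *
      ((C.filter fun e => (k : ℤ) < ((σ e • φ e : ZMod k).val : ℤ) + c).card : ℤ) < 2 * k) :
    ∃ f g : E → ℤ, (∀ v, dv G f v = 0) ∧ (∀ v, dv G g v = 0) ∧
      (∀ e, ((f e : ℤ) : ZMod k) = φ e) ∧ (∀ e, ((g e : ℤ) : ZMod k) = ψ e) ∧
      (∀ e, f e ≠ 0 ∧ |f e| < k) ∧ (∀ e, g e ≠ 0 ∧ |g e| < k) ∧ (∀ e, f e ≠ g e ↔ e ∈ C) := by
  have : NeZero k := ⟨by omega⟩
  set s : E → Bool := fun e => decide (σ e = -1) with hs
  have hsn : ∀ e, sn s e * ind C e = σ e := by
    intro e
    unfold sn ind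
    by_cases he : e ∈ C
    · rcases hσ1 e he with h | h <;> simp [hs, h, he]
    · simp [he, hσ0 e he]
  have hcast : ∀ (x : ZMod k) (e : E), sn s e • (sn s e • x) = x := by
    intro x e
    rw [smul_smul, sn_mul_self, one_smul]
  have hb' : (c - 2) *
      ((C.filter fun e => (k : ℤ) < ((sn s e • φ e : ZMod k).val : ℤ) + c).card : ℤ) < 2 * k := by
    have h1 : (C.filter fun e => (k : ℤ) < ((sn s e • φ e : ZMod k).val : ℤ) + c) =
        C.filter fun e => (k : ℤ) < ((σ e • φ e : ZMod k).val : ℤ) + c := by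
      refine Finset.filter_congr fun e he => ?_
      have := hsn e
      rw [ind, if_pos he, mul_one] at this
      rw [this]
    rw [h1]
    exact hb
  obtain ⟨f, h1, h2, h3, h4⟩ := lift_pos (rev G s) k hk C (fun v => by
      rw [dv_rev]
      have : (fun e => sn s e • ind C e) = σ := funext fun e => by rw [smul_eq_mul, hsn]
      rw [this, hσ]) (fun e => sn s e • φ e) (fun v => by
      rw [dv_rev]
      simp only [hcast]
      exact hφ v) (fun e => ((sn s e • φ e : ZMod k).val : ℤ)) (fun e => by simp) (fun e => by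
      have h5 : (sn s e • φ e).val ≠ 0 := fun h => by
        rw [ZMod.val_eq_zero] at h
        apply hφ0 e
        rw [← hcast (φ e) e, h, smul_zero]
      omega) (fun e => by exact_mod_cast ZMod.val_lt _) c hc1 hck hb' (fun e he h => by
      apply hψ0 e
      have h5 : ψ e = sn s e • (sn s e • φ e + (c : ZMod k)) := by
        rw [smul_add, hcast, zsmul_eq_mul]
        have h6 := hσc e
        rw [← hsn e] at h6
        simp only [ind, if_pos he, mul_one] at h6
        rw [← Int.cast_mul, ← h6]
        ring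
      rw [h5, h, smul_zero])
  have habs : ∀ e (x : ℤ), |sn s e * x| = |x| := by
    intro e x
    rcases sn_cases s e with h | h <;> rw [h] <;> simp
  have hne : ∀ e (x : ℤ), x ≠ 0 → sn s e * x ≠ 0 := by
    intro e x hx
    rcases sn_cases s e with h | h <;> rw [h] <;> simpa using hx
  have hg : ∀ e, sn s e * f e + c * σ e = sn s e * (f e + c * ind C e) := by
    intro e
    rw [← hsn e]
    ring
  have hdf : ∀ v, dv G (fun e => sn s e * f e) v = 0 := by
    intro v
    have := h1 v
    rw [dv_rev] at this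
    exact this
  have hcf : ∀ e, ((sn s e * f e : ℤ) : ZMod k) = φ e := by
    intro e
    rw [Int.cast_mul, h2, ← zsmul_eq_mul, hcast]
  refine ⟨fun e => sn s e * f e, fun e => sn s e * f e + c * σ e, hdf, ?_, hcf, ?_, ?_, ?_, ?_⟩
  · intro v
    have : (fun e => sn s e * f e + c * σ e) = (fun e => sn s e * f e) + fun e => c * σ e := rfl
    rw [this, dv_add, hdf, dv_mul, hσ]
    simp
  · intro e
    rw [Int.cast_add, hcf, mul_comm c, ← hσc]
    ring
  · intro e
    exact ⟨hne e _ (h3 e).1, by rw [habs]; exact (h3 e).2⟩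
  · intro e
    beta_reduce
    rw [hg]
    by_cases he : e ∈ C
    · simp only [ind, if_pos he, mul_one]
      exact ⟨hne e _ (h4 e he).1, by rw [habs]; exact (h4 e he).2⟩
    · simp only [ind, if_neg he, mul_zero, add_zero]
      exact ⟨hne e _ (h3 e).1, by rw [habs]; exact (h3 e).2⟩
  · intro e
    have hcc : c ≠ 0 := by omega
    by_cases he : e ∈ C
    · simp only [he, iff_true]
      rcases hσ1 e he with h | h <;> simp [h, hcc]
    · simp [he, hσ0 e he]

/-- the arithmetic of the two directions -/
theorem arith (k c a b n : ℤ) (hc1 : 1 ≤ c) (hck : c < k) (ha : 0 ≤ a) (hb : 0 ≤ b)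
    (hab : a + b ≤ n) (h1 : 2 * k ≤ (c - 2) * a) (h2 : 2 * k ≤ (k - c - 2) * b)
    (h : k ≤ 5 ∨ (k - 4) * n < 8 * k) : False := by
  have hu : 0 < c - 2 := by
    by_contra h3
    push Not at h3
    nlinarith
  have hv : 0 < k - c - 2 := by
    by_contra h3
    push Not at h3
    nlinarith
  rcases h with h | h
  · omega
  · set u := c - 2 with hu'
    set v := k - c - 2 with hv'
    have huv : k - 4 = u + v := by omega
    rw [huv] at h
    have h3 : (u + v) * (a + b) ≤ (u + v) * n := mul_le_mul_of_nonneg_left hab (by omega)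
    have h4 : 0 ≤ u * b := mul_nonneg hu.le hb
    have h5 : 0 ≤ v * a := mul_nonneg hv.le ha
    have h6 : u * b + v * a < 4 * k := by nlinarith
    have h7 : (2 * k) * (2 * k) ≤ (u * a) * (v * b) :=
      mul_le_mul h1 h2 (by omega) (by nlinarith)
    have h8 : (u * b + v * a) * (u * b + v * a) < (4 * k) * (4 * k) :=
      mul_self_lt_mul_self (by omega) h6
    nlinarith [mul_self_nonneg (u * b - v * a)]

theorem lift_step (G : Graph V E) (k : ℕ) (hk : 2 ≤ k) {C : Finset E} (hC : IsCycle G C)
    (hb : k ≤ 5 ∨ (k - 4) * C.card < 8 * k) (φ ψ : E → ZMod k) (hφ : ∀ v, dv G φ v = 0)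
    (hψ : ∀ v, dv G ψ v = 0) (hφ0 : ∀ e, φ e ≠ 0) (hψ0 : ∀ e, ψ e ≠ 0)
    (hin : ∀ e ∈ C, φ e ≠ ψ e) (hout : ∀ e ∉ C, φ e = ψ e) :
    ∃ f g : E → ℤ, (∀ v, dv G f v = 0) ∧ (∀ v, dv G g v = 0) ∧
      (∀ e, ((f e : ℤ) : ZMod k) = φ e) ∧ (∀ e, ((g e : ℤ) : ZMod k) = ψ e) ∧
      (∀ e, f e ≠ 0 ∧ |f e| < k) ∧ (∀ e, g e ≠ 0 ∧ |g e| < k) ∧ (∀ e, f e ≠ g e ↔ e ∈ C) := by
  have : NeZero k := ⟨by omega⟩
  obtain ⟨σ, hσ1, hσ0, hσ⟩ := orient G hC
  have hδ : ∀ v, dv G (ψ - φ) v = 0 := by
    intro v
    rw [dv_sub, hφ, hψ, sub_self]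
  obtain ⟨c0, hc0⟩ := flow_on_cycle G hC (ψ - φ) (fun e he => by
    rw [Pi.sub_apply, hout e he, sub_self]) hδ σ hσ1 hσ0 hσ
  obtain ⟨e0, he0⟩ := hC.nonempty
  have hc00 : c0 ≠ 0 := by
    rintro rfl
    have := hc0 e0
    rw [smul_zero, Pi.sub_apply, sub_eq_zero] at this
    exact hin e0 he0 this.symm
  have hc0v : c0.val ≠ 0 := fun h => hc00 ((ZMod.val_eq_zero _).1 h)
  have hc0lt : c0.val < k := ZMod.val_lt c0
  obtain ⟨c, hc⟩ : ∃ c : ℤ, c = (c0.val : ℤ) := ⟨_, rfl⟩
  have hc1 : 1 ≤ c := by omega
  have hck : c < k := by omega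
  have hcc : ((c : ℤ) : ZMod k) = c0 := by rw [hc]; simp
  have hA1 : ∀ e, ψ e - φ e = ((σ e * c : ℤ) : ZMod k) := by
    intro e
    have := hc0 e
    rw [Pi.sub_apply] at this
    rw [this, zsmul_eq_mul, Int.cast_mul, hcc]
  have hA2 : ∀ e, ψ e - φ e = ((((-1) * σ e) * (k - c) : ℤ) : ZMod k) := by
    intro e
    rw [hA1]
    push_cast
    simp
  by_cases h1 : (c - 2) *
      ((C.filter fun e => (k : ℤ) < ((σ e • φ e : ZMod k).val : ℤ) + c).card : ℤ) < 2 * k
  · exact lift_core G k hk φ ψ hφ hφ0 hψ0 σ hσ1 hσ0 hσ c hc1 hck hA1 h1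
  by_cases h2 : ((k : ℤ) - c - 2) *
      ((C.filter fun e => (k : ℤ) < (((-1 * σ e) • φ e : ZMod k).val : ℤ) +
        ((k : ℤ) - c)).card : ℤ) < 2 * k
  · exact lift_core G k hk φ ψ hφ hφ0 hψ0 (fun e => -1 * σ e)
      (fun e he => by rcases hσ1 e he with h | h <;> simp [h])
      (fun e he => by simp [hσ0 e he]) (fun v => by rw [dv_mul, hσ, mul_zero]) ((k : ℤ) - c)
      (by omega) (by omega) hA2 h2
  exfalso
  push Not at h1 h2
  refine arith k c _ _ (C.card : ℤ) hc1 hck (by positivity) (by positivity) ?_ h1 h2 ?_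
  · have h3 : Disjoint (C.filter fun e => (k : ℤ) < ((σ e • φ e : ZMod k).val : ℤ) + c)
        (C.filter fun e => (k : ℤ) < (((-1 * σ e) • φ e : ZMod k).val : ℤ) + ((k : ℤ) - c)) := by
      rw [Finset.disjoint_filter]
      intro e he h4 h5
      have h6 : (-1 * σ e) • φ e = -(σ e • φ e) := by
        rw [neg_one_mul, neg_smul]
      have h7 : NeZero (σ e • φ e) := ⟨by
        rcases hσ1 e he with h | h <;> rw [h] <;> simpa using hφ0 e⟩
      have h8 : (σ e • φ e).val < k := ZMod.val_lt _
      rw [h6, ZMod.val_neg_of_ne_zero] at h5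
      omega
    have h4 := Finset.card_le_card (Finset.union_subset
      (Finset.filter_subset (fun e => (k : ℤ) < ((σ e • φ e : ZMod k).val : ℤ) + c) C)
      (Finset.filter_subset (fun e => (k : ℤ) < (((-1 * σ e) • φ e : ZMod k).val : ℤ) +
        ((k : ℤ) - c)) C))
    rw [Finset.card_union_of_disjoint h3] at h4
    exact_mod_cast h4
  · rcases hb with h | h
    · left; omega
    · by_cases h5 : k ≤ 5
      · left; omega
      · right
        have h6 : (((k - 4 : ℕ) : ℤ)) * (C.card : ℤ) < 8 * k := by exact_mod_cast h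
        have h7 : ((k - 4 : ℕ) : ℤ) = (k : ℤ) - 4 := by omega
        rw [h7] at h6
        exact h6

/-! ### The fibres -/

/-- the start of the edge in the direction of `h` -/
def tail (G : Graph V E) (h : E → ℤ) (e : E) : V := if h e = -1 then G.tgt e else G.src e

/-- the end of the edge in the direction of `h` -/
def head (G : Graph V E) (h : E → ℤ) (e : E) : V := if h e = -1 then G.src e else G.tgt e

theorem tail_ne_head (G : Graph V E) (h : E → ℤ) (e : E) : tail G h e ≠ head G h e := by
  unfold tail head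
  split_ifs
  · exact (G.noloop e).symm
  · exact G.noloop e

theorem sg_mul (G : Graph V E) (h : E → ℤ) {e : E} (he : h e = 1 ∨ h e = -1) (v : V) :
    sg G e v * h e = (if tail G h e = v then 1 else 0) - (if head G h e = v then 1 else 0) := by
  unfold sg tail head
  rcases he with he | he <;> simp [he]

theorem inc_iff (G : Graph V E) (h : E → ℤ) (e : E) (v : V) :
    Inc G e v ↔ tail G h e = v ∨ head G h e = v := by
  unfold Inc tail head
  split_ifs
  · exact or_comm
  · exact Iff.rfl

theorem exists_cycle (G : Graph V E) (h : E → ℤ) (hh : ∀ e, h e = 0 ∨ h e = 1 ∨ h e = -1)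
    (hflow : ∀ v, dv G h v = 0) (hne : ∃ e, h e ≠ 0) :
    ∃ C, IsCycle G C ∧ (∀ e ∈ C, h e ≠ 0) ∧
      ∀ v, dv G (fun e => if e ∈ C then h e else 0) v = 0 := by
  classical
  set D : Finset E := univ.filter fun e => h e ≠ 0 with hD
  let P : Finset E → Prop := fun C => C.Nonempty ∧ ∀ e ∈ C, ∃ e' ∈ C, tail G h e' = head G h e
  have hPD : P D := by
    obtain ⟨e, he⟩ := hne
    refine ⟨⟨e, by simp [hD, he]⟩, fun e he => ?_⟩
    have he : h e ≠ 0 := by simpa [hD] using he
    by_contra hcon
    push Not at hcon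
    have h1 := hflow (head G h e)
    unfold dv at h1
    have h2 : ∑ e', sg G e' (head G h e) • h e' < 0 := by
      refine Finset.sum_neg' (fun e' _ => ?_) ⟨e, mem_univ e, ?_⟩
      · rw [smul_eq_mul]
        by_cases he' : h e' = 0
        · rw [he', mul_zero]
        · rw [sg_mul G h ((hh e').resolve_left he')]
          have := hcon e' (by simp [hD, he'])
          rw [if_neg this]
          split_ifs <;> norm_num
      · rw [smul_eq_mul, sg_mul G h ((hh e).resolve_left he), if_neg (tail_ne_head G h e),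
          if_pos rfl]
        norm_num
    omega
  obtain ⟨C, hC, hmin⟩ := Finset.exists_min_image (D.powerset.filter P) Finset.card
    ⟨D, mem_filter.2 ⟨mem_powerset_self D, hPD⟩⟩
  rw [mem_filter, mem_powerset] at hC
  obtain ⟨hCD, hCne, hC⟩ := hC
  have hmin' : ∀ C' ⊆ C, P C' → C' = C := by
    intro C' h1 h2
    exact Finset.eq_of_subset_of_card_le h1
      (hmin C' (mem_filter.2 ⟨mem_powerset.2 (h1.trans hCD), h2⟩))
  have hh' : ∀ e ∈ C, h e = 1 ∨ h e = -1 := by
    intro e he
    have := hCD he
    rw [hD, mem_filter] at this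
    exact (hh e).resolve_left this.2
  have ha : ∀ e1 ∈ C, ∀ e2 ∈ C, tail G h e1 = tail G h e2 → e1 = e2 := by
    intro e1 h1 e2 h2 h12
    by_contra hne
    have := hmin' (C.erase e2) (erase_subset _ _) ⟨⟨e1, mem_erase.2 ⟨hne, h1⟩⟩, fun e he => by
      obtain ⟨e', he', h3⟩ := hC e (mem_erase.1 he).2
      by_cases h4 : e' = e2
      · refine ⟨e1, mem_erase.2 ⟨hne, h1⟩, ?_⟩
        rw [h12, ← h4, h3]
      · exact ⟨e', mem_erase.2 ⟨h4, he'⟩, h3⟩⟩
    rw [← this] at h2
    simp at h2
  have hb : ∀ e' ∈ C, ∃ e ∈ C, head G h e = tail G h e' := by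
    intro e' he'
    by_contra hcon
    push Not at hcon
    have := hmin' (C.erase e') (erase_subset _ _) ⟨by
      obtain ⟨n, hn, h3⟩ := hC e' he'
      refine ⟨n, mem_erase.2 ⟨?_, hn⟩⟩
      rintro rfl
      exact hcon n hn h3.symm, fun e he => by
      obtain ⟨x, hx, h3⟩ := hC e (mem_erase.1 he).2
      refine ⟨x, mem_erase.2 ⟨?_, hx⟩, h3⟩
      rintro rfl
      exact hcon e (mem_erase.1 he).2 h3.symm⟩
    rw [← this] at he'
    simp at he'
  have hc : ∀ e1 ∈ C, ∀ e2 ∈ C, head G h e1 = head G h e2 → e1 = e2 := by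
    have h1 : (C.image (tail G h)).card = C.card := Finset.card_image_iff.2 fun a h1 b h2 h3 =>
      ha a h1 b h2 h3
    have h2 : C.image (tail G h) ⊆ C.image (head G h) := by
      intro v hv
      obtain ⟨e', he', rfl⟩ := mem_image.1 hv
      obtain ⟨e, he, h3⟩ := hb e' he'
      exact mem_image.2 ⟨e, he, h3⟩
    have h3 := Finset.card_le_card h2
    have h4 : (C.image (head G h)).card = C.card :=
      le_antisymm Finset.card_image_le (by rw [← h1]; exact h3)
    intro e1 h5 e2 h6 h7
    exact Finset.card_image_iff.1 h4 h5 h6 h7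
  have hd : ∀ v, (C.filter fun e => tail G h e = v).card =
      (C.filter fun e => head G h e = v).card ∧ (C.filter fun e => tail G h e = v).card ≤ 1 := by
    intro v
    have h1 : (C.filter fun e => tail G h e = v).card ≤ 1 := by
      rw [Finset.card_le_one]
      intro a h1 b h2
      rw [mem_filter] at h1 h2
      exact ha a h1.1 b h2.1 (h1.2.trans h2.2.symm)
    have h2 : (C.filter fun e => head G h e = v).card ≤ 1 := by
      rw [Finset.card_le_one]
      intro a h1 b h2
      rw [mem_filter] at h1 h2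
      exact hc a h1.1 b h2.1 (h1.2.trans h2.2.symm)
    have h3 : 0 < (C.filter fun e => tail G h e = v).card ↔
        0 < (C.filter fun e => head G h e = v).card := by
      rw [Finset.card_pos, Finset.card_pos]
      constructor
      · rintro ⟨e', he'⟩
        rw [mem_filter] at he'
        obtain ⟨e, he, h3⟩ := hb e' he'.1
        exact ⟨e, mem_filter.2 ⟨he, h3.trans he'.2⟩⟩
      · rintro ⟨e', he'⟩
        rw [mem_filter] at he'
        obtain ⟨e, he, h3⟩ := hC e' he'.1
        exact ⟨e, mem_filter.2 ⟨he, h3.trans he'.2⟩⟩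
    refine ⟨?_, h1⟩
    omega
  refine ⟨C, ⟨hCne, ?_, ?_⟩, ?_, ?_⟩
  · intro v
    have h1 : C.filter (Inc G · v) = (C.filter fun e => tail G h e = v) ∪
        (C.filter fun e => head G h e = v) := by
      rw [← Finset.filter_or]
      exact Finset.filter_congr fun e _ => inc_iff G h e v
    have h2 : Disjoint (C.filter fun e => tail G h e = v) (C.filter fun e => head G h e = v) := by
      rw [Finset.disjoint_filter]
      intro e _ h3 h4
      exact tail_ne_head G h e (h3.trans h4.symm)
    rw [h1, Finset.card_union_of_disjoint h2]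
    have := hd v
    omega
  · intro S hS hSne hSC
    by_contra hcon
    push Not at hcon
    apply hSC
    apply hmin' S hS
    refine ⟨hSne, fun e he => ?_⟩
    obtain ⟨e', he', h1⟩ := hC e (hS he)
    refine ⟨e', ?_, h1⟩
    by_contra h2
    exact hcon e he e' (mem_sdiff.2 ⟨he', h2⟩) (head G h e) ((inc_iff G h _ _).2 (Or.inr rfl))
      ((inc_iff G h _ _).2 (Or.inl h1))
  · intro e he
    rcases hh' e he with h1 | h1 <;> rw [h1] <;> norm_num
  · intro v
    unfold dv
    have h1 : ∀ e, sg G e v • (if e ∈ C then h e else 0) =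
        if e ∈ C then ((if tail G h e = v then (1 : ℤ) else 0) -
          (if head G h e = v then 1 else 0)) else 0 := by
      intro e
      split_ifs with h1
      all_goals first
        | (rw [smul_eq_mul, sg_mul G h (hh' e h1)]; simp_all)
        | simp
    simp only [h1]
    rw [← Finset.sum_filter, Finset.filter_mem_eq_inter, Finset.univ_inter,
      Finset.sum_sub_distrib]
    have h2 := (hd v).1
    rw [Finset.card_filter, Finset.card_filter] at h2
    have h3 : (∑ e ∈ C, (if tail G h e = v then (1 : ℤ) else 0)) =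
        ∑ e ∈ C, (if head G h e = v then (1 : ℤ) else 0) := by exact_mod_cast h2
    rw [h3, sub_self]

/-- two nowhere-zero `k`-flows which are equal modulo `k` are joined by a path -/
theorem fibre (G : Graph V E) (k : ℕ) (hk : 2 ≤ k) (n : ℕ) :
    ∀ f g : {f : E → ℤ // IsFlow G f ∧ ∀ e, f e ≠ 0 ∧ |f e| < k},
      (supp (f.1 - g.1)).card ≤ n → (∀ e, (k : ℤ) ∣ f.1 e - g.1 e) →
      (recInt G k).Reachable f g := by
  have hk0 : (0 : ℤ) < k := by omega
  have hsupp : ∀ (f g : E → ℤ) (e : E), e ∈ supp (f - g) ↔ f e ≠ g e := by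
    intro f g e
    unfold supp
    simp [sub_eq_zero]
  induction n with
  | zero =>
    intro f g h1 _
    have h2 : supp (f.1 - g.1) = ∅ := Finset.card_eq_zero.1 (by omega)
    have h3 : f = g := by
      apply Subtype.ext
      funext e
      by_contra h4
      have := (hsupp f.1 g.1 e).2 h4
      rw [h2] at this
      simp at this
    rw [h3]
  | succ n ih =>
    intro f g h1 h2
    by_cases h0 : f = g
    · rw [h0]
    choose h hh using h2
    have hf := (isFlow_iff G f.1).1 f.2.1
    have hg := (isFlow_iff G g.1).1 g.2.1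
    have hval : ∀ e, h e = 0 ∨ h e = 1 ∨ h e = -1 := by
      intro e
      have h3 := abs_lt.1 (f.2.2 e).2
      have h4 := abs_lt.1 (g.2.2 e).2
      have h5 := hh e
      have h6 : h e < 2 := by
        by_contra h7
        push Not at h7
        have : (k : ℤ) * 2 ≤ k * h e := mul_le_mul_of_nonneg_left h7 hk0.le
        omega
      have h8 : -2 < h e := by
        by_contra h7
        push Not at h7
        have : (k : ℤ) * h e ≤ k * (-2) := mul_le_mul_of_nonneg_left h7 hk0.le
        omega
      omega
    have hflow : ∀ v, dv G h v = 0 := by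
      intro v
      have h3 : dv G (f.1 - g.1) v = 0 := by rw [dv_sub, hf, hg, sub_self]
      have h4 : f.1 - g.1 = fun e => (k : ℤ) * h e := funext hh
      rw [h4, dv_mul] at h3
      exact (mul_eq_zero.1 h3).resolve_left hk0.ne'
    have hne : ∃ e, h e ≠ 0 := by
      by_contra h3
      push Not at h3
      apply h0
      apply Subtype.ext
      funext e
      have := hh e
      rw [h3 e, mul_zero] at this
      omega
    obtain ⟨C, hC, hC0, hCflow⟩ := exists_cycle G h hval hflow hne
    have hfg : ∀ e ∈ C, f.1 e ≠ g.1 e := by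
      intro e he h3
      have := hh e
      rw [h3, sub_self] at this
      exact hC0 e he ((mul_eq_zero.1 this.symm).resolve_left hk0.ne')
    let f' : {f : E → ℤ // IsFlow G f ∧ ∀ e, f e ≠ 0 ∧ |f e| < k} :=
      ⟨fun e => if e ∈ C then g.1 e else f.1 e, by
        rw [isFlow_iff]
        intro v
        have h3 : (fun e => if e ∈ C then g.1 e else f.1 e) =
            f.1 - fun e => (k : ℤ) * (if e ∈ C then h e else 0) := by
          funext e
          rw [Pi.sub_apply]
          have := hh e
          split_ifs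
          · omega
          · ring
        rw [h3, dv_sub, hf, dv_mul, hCflow, mul_zero, sub_zero], by
        intro e
        dsimp only
        split_ifs
        · exact g.2.2 e
        · exact f.2.2 e⟩
    have hf' : ∀ e, f'.1 e = if e ∈ C then g.1 e else f.1 e := fun e => rfl
    have hadj : (recInt G k).Adj f f' := by
      show IsCycle G (supp (f.1 - f'.1))
      have : supp (f.1 - f'.1) = C := by
        ext e
        rw [hsupp, hf']
        by_cases he : e ∈ C
        · simp [he, hfg e he]
        · simp [he]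
      rw [this]
      exact hC
    refine hadj.reachable.trans (ih f' g ?_ ?_)
    · have h3 : supp (f'.1 - g.1) ⊂ supp (f.1 - g.1) := by
        rw [Finset.ssubset_iff_of_subset]
        · obtain ⟨e, he⟩ := hC.nonempty
          refine ⟨e, (hsupp _ _ _).2 (hfg e he), ?_⟩
          rw [hsupp, hf', if_pos he]
          simp
        · intro e he
          rw [hsupp, hf'] at he
          rw [hsupp]
          split_ifs at he
          · exact absurd rfl he
          · exact he
      have := Finset.card_lt_card h3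
      omega
    · intro e
      rw [hf']
      split_ifs
      · simp
      · exact ⟨h e, hh e⟩

/-- all lifts of the end points of a walk are joined by a path -/
theorem walk (G : Graph V E) (k : ℕ) (hk : 2 ≤ k)
    (hb : ∀ C, IsCycle G C → k ≤ 5 ∨ (k - 4) * C.card < 8 * k)
    {φ ψ : {f : E → ZMod k // IsFlow G f ∧ ∀ e, f e ≠ 0}} (p : (recMod G k).Walk φ ψ) :
    ∀ f g : {f : E → ℤ // IsFlow G f ∧ ∀ e, f e ≠ 0 ∧ |f e| < k},
      (∀ e, ((f.1 e : ℤ) : ZMod k) = φ.1 e) → (∀ e, ((g.1 e : ℤ) : ZMod k) = ψ.1 e) →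
      (recInt G k).Reachable f g := by
  induction p with
  | nil =>
    intro f g hf hg
    refine fibre G k hk _ f g le_rfl fun e => ?_
    rw [← ZMod.intCast_zmod_eq_zero_iff_dvd]
    push_cast
    rw [hf, hg, sub_self]
  | @cons φ φ' ψ hadj p ih =>
    intro f g hf hg
    have hC : IsCycle G (supp (φ.1 - φ'.1)) := hadj
    have hmem : ∀ e, e ∈ supp (φ.1 - φ'.1) ↔ φ.1 e ≠ φ'.1 e := by
      intro e
      unfold supp
      simp [sub_eq_zero]
    obtain ⟨f1, g1, h1, h2, h3, h4, h5, h6, h7⟩ := lift_step G k hk hC (hb _ hC) φ.1 φ'.1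
      ((isFlow_iff G _).1 φ.2.1) ((isFlow_iff G _).1 φ'.2.1) φ.2.2 φ'.2.2
      (fun e he => (hmem e).1 he) (fun e he => not_not.1 fun h => he ((hmem e).2 h))
    let F : {f : E → ℤ // IsFlow G f ∧ ∀ e, f e ≠ 0 ∧ |f e| < k} :=
      ⟨f1, (isFlow_iff G _).2 h1, h5⟩
    let F' : {f : E → ℤ // IsFlow G f ∧ ∀ e, f e ≠ 0 ∧ |f e| < k} :=
      ⟨g1, (isFlow_iff G _).2 h2, h6⟩
    have hFF : (recInt G k).Adj F F' := by
      show IsCycle G (supp (f1 - g1))
      have : supp (f1 - g1) = supp (φ.1 - φ'.1) := by
        ext e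
        rw [← h7]
        unfold supp
        simp [sub_eq_zero]
      rw [this]
      exact hC
    have hfF : (recInt G k).Reachable f F := by
      refine fibre G k hk _ f F le_rfl fun e => ?_
      rw [← ZMod.intCast_zmod_eq_zero_iff_dvd]
      push_cast
      show ((f.1 e : ℤ) : ZMod k) - ((f1 e : ℤ) : ZMod k) = 0
      rw [hf, h3, sub_self]
    exact hfF.trans (hFF.reachable.trans (ih F' g h4 hg))

/-- the reduction modulo `k` -/
def red (G : Graph V E) (k : ℕ)
    (f : {f : E → ℤ // IsFlow G f ∧ ∀ e, f e ≠ 0 ∧ |f e| < k}) :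
    {f : E → ZMod k // IsFlow G f ∧ ∀ e, f e ≠ 0} :=
  ⟨fun e => ((f.1 e : ℤ) : ZMod k), by
    rw [isFlow_iff]
    intro v
    rw [← cast_dv, (isFlow_iff G _).1 f.2.1 v]
    simp, fun e h => by
    rw [ZMod.intCast_zmod_eq_zero_iff_dvd] at h
    obtain ⟨h1, h2⟩ := f.2.2 e
    exact h1 (Int.eq_zero_of_abs_lt_dvd h h2)⟩

theorem main (G : Graph V E) (k : ℕ) (hk : 2 ≤ k)
    (hb : ∀ C, IsCycle G C → k ≤ 5 ∨ (k - 4) * C.card < 8 * k) (h : (recMod G k).Preconnected) :
    (recInt G k).Preconnected := by
  intro f g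
  obtain ⟨p⟩ := h (red G k f) (red G k g)
  exact walk G k hk hb p f g (fun _ => rfl) (fun _ => rfl)

/-- **Theorem.** Let `k ≥ 2`. If `F(G, ℤ_k)` is connected then `F(G, k)` is connected, (1) for all
graphs `G` if `k ≤ 5`, and (2) for `k ≥ 6` if each cycle of `G` has fewer than `8 k / (k - 4)` edges
(this holds for all `k ≥ 6` if all cycles have at most eight edges). -/
theorem result {V E : Type} [Fintype V] [DecidableEq V] [Fintype E] [DecidableEq E]
    (G : Graph V E) (k : ℕ) (hk : 2 ≤ k) :
    (k ≤ 5 → (recMod G k).Preconnected → (recInt G k).Preconnected) ∧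
    ((∀ C, IsCycle G C → (k - 4) * C.card < 8 * k) →
      (recMod G k).Preconnected → (recInt G k).Preconnected) :=
  ⟨fun h => main G k hk fun _ _ => Or.inl h, fun h => main G k hk fun C hC => Or.inr (h C hC)⟩

end Pool.Agent.Results.MP_3da9df_co.LiftedMoves
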